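import Pool.Agent.Helper92.TG.GoalsX

/-!
# Project TGX (MP_a41896_nt), part C: rational maps between elliptic curves; definitions

`W`, `W'` are curves over `K`, `WL F W` is the curve over `F`; `xc`, `ps` are the coordinates `x` and `ψ = 2y + a₁x + a₃`, `ψ² = β(x)`.
-/

set_option autoImplicit false

open Polynomial

namespace Pool.Agent.Helper92.TGC

open WeierstrassCurve
open Pool.Agent.Helper29.BL Pool.Agent.Helper42.SG
open Pool.Agent.Helper60.T3 (WL zd IP)
open Pool.Agent.Helper92.TG (mp)

noncomputable section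

variable {K : Type} [Field K]

/-- the polynomial `β = 4X³ + b₂X² + 2b₄X + b₆` -/
def be (W : Affine K) : K[X] :=
  C 4 * X ^ 3 + C W.b₂ * X ^ 2 + C (2 * W.b₄) * X + C W.b₆

/-- `B³ β(A / B)` -/
def be3 (W : Affine K) (A B : K[X]) : K[X] :=
  C 4 * A ^ 3 + C W.b₂ * A ^ 2 * B + C (2 * W.b₄) * A * B ^ 2 + C W.b₆ * B ^ 3

/-- the Wronskian -/
def wr (A B : K[X]) : K[X] := derivative A * B - A * derivative B

/-- the formulas for `Q = φ(P)`: `x(Q) = (A/B)(x(P))`, `a ψ(Q) = (A/B)'(x(P)) ψ(P)` -/
def HomF (A B : K[X]) (a : K) {F : Type} [Field F] [Algebra K F] {V V' : Affine F}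
    (P : V.Point) (Q : V'.Point) : Prop :=
  (Q = 0 ↔ aeval (xc P) B = 0) ∧ (Q ≠ 0 → xc Q * aeval (xc P) B = aeval (xc P) A ∧
    algebraMap K F a * ps Q * aeval (xc P) B ^ 2 = aeval (xc P) (wr A B) * ps P)

/-- `A, B, a` are the data of a homomorphism `W → W'` over `K` -/
structure HomD (W W' : Affine K) (A B : K[X]) (a : K) : Prop where
  cop : IsCoprime A B
  deg : B.natDegree < A.natDegree
  ne : a ≠ 0
  hom : ∀ (F : Type) [Field F] [DecidableEq F] [Algebra K F],
    ∃ φ : (WL F W).Point →+ (WL F W').Point, ∀ P, P ≠ 0 → HomF A B a P (φ P)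

/-- a rational map `W → W'` over `K`: for every generic point `u` of `W` a point of `W'` with coordinates in `K(u)` -/
structure GMap (W W' : Affine K) : Type 1 where
  g : ∀ (F : Type) [Field F] [DecidableEq F] [Algebra K F], (WL F W).Point → (WL F W').Point
  nat : ∀ (F F' : Type) [Field F] [DecidableEq F] [Algebra K F] [Field F'] [DecidableEq F']
    [Algebra K F'] (j : F →ₐ[K] F') (u : (WL F W).Point), Transcendental K (xc u) →
    g F' (mp j u) = mp j (g F u)
  ip : ∀ (F : Type) [Field F] [DecidableEq F] [Algebra K F] (u : (WL F W).Point),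
    Transcendental K (xc u) →
      IP (IntermediateField.adjoin K ({xc u, ps u} : Set F) : Set F) (g F u)

/-- the constant point -/
abbrev cst {W' : Affine K} [DecidableEq K] (F : Type) [Field F] [DecidableEq F] [Algebra K F]
    (c : (WL K W').Point) : (WL F W').Point :=
  mp (Algebra.ofId K F) c

variable {W W' : Affine K}

/-- additive at independent points -/
def GMap.Add (s : GMap W W') : Prop :=
  ∀ (F : Type) [Field F] [DecidableEq F] [Algebra K F] (u v : (WL F W).Point),
    AlgebraicIndependent K ![xc u, xc v] → s.g F (u + v) = s.g F u + s.g F v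

/-- not constant -/
def GMap.NC (s : GMap W W') : Prop :=
  ∀ (F : Type) [Field F] [DecidableEq F] [Algebra K F] (u : (WL F W).Point),
    Transcendental K (xc u) → xc (s.g F u) ∉ Set.range (algebraMap K F)

/-- the formulas at the generic points -/
def GMap.Fm (s : GMap W W') (A B : K[X]) (a : K) : Prop :=
  ∀ (F : Type) [Field F] [DecidableEq F] [Algebra K F] (u : (WL F W).Point),
    Transcendental K (xc u) → s.g F u ≠ 0 ∧ xc (s.g F u) * aeval (xc u) B = aeval (xc u) A ∧
      algebraMap K F a * ps (s.g F u) * aeval (xc u) B ^ 2 = aeval (xc u) (wr A B) * ps u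

/-- **the result of part C.** `Ω ⊇ K` algebraically closed, `v` generic on `W` over `Ω`, `S` a point of `W'` with coordinates in `Ω(v)`, not constant:
`S = φ(v) + c` with a homomorphism `φ` over a finite extension `K₁` of `K`. -/
def S_HOMC : Prop :=
  ∀ (K : Type) [Field K] [CharZero K] (W W' : Affine K), W.IsElliptic → W'.IsElliptic →
    ∀ (Ω : Type) [Field Ω] [Algebra K Ω] [IsAlgClosed Ω] (F : Type) [Field F] [DecidableEq F]
      [Algebra K F] [Algebra Ω F] [IsScalarTower K Ω F] (v : (WL F W).Point)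
      (S : (WL F W').Point), Transcendental Ω (xc v) →
      IP (IntermediateField.adjoin Ω ({xc v, ps v} : Set F) : Set F) S →
      xc S ∉ Set.range (algebraMap Ω F) →
      ∃ (K₁ : IntermediateField K Ω) (A B : K₁[X]) (a : K₁) (Q c : (WL F W').Point),
        FiniteDimensional K K₁ ∧ HomD (WL K₁ W) (WL K₁ W') A B a ∧ HomF A B a v Q ∧
        S = Q + c ∧ IP (Set.range (algebraMap Ω F)) c

end

end Pool.Agent.Helper92.TGC
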